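import Pool.Agent.PTWB.FW5

/-!
# [PTWB] Fundamental lemma weights: the final statement
-/

set_option autoImplicit false

open Finset

namespace Pool.Agent.PTWB

open Pool.Agent.MP_f32cb9_nt (PP)

/-- fundamental lemma weights (upper `θp`, lower `θm`) for a finite set `P` of primes, level `D`, relative error `ε` for all the
densities `g ∈ Dn κ P` -/
structure FW (κ ε : ℝ) (P : Finset ℕ) (D : ℕ) (θp θm : ℕ → ℝ) : Prop where
  absp : ∀ d, |θp d| ≤ 1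
  absm : ∀ d, |θm d| ≤ 1
  suppp : ∀ d, θp d ≠ 0 → d ∣ ∏ p ∈ P, p ∧ d ≤ D
  suppm : ∀ d, θm d ≠ 0 → d ∣ ∏ p ∈ P, p ∧ d ≤ D
  up : ∀ a, a ≠ 0 → (if ∀ p ∈ P, ¬ p ∣ a then (1 : ℝ) else 0) ≤ ∑ d ∈ a.divisors, θp d
  lo : ∀ a, a ≠ 0 → ∑ d ∈ a.divisors, θm d ≤ (if ∀ p ∈ P, ¬ p ∣ a then (1 : ℝ) else 0)
  gp0 : ∀ g : ℕ → ℝ, Dn κ P g →
    ∏ p ∈ P, (1 - g p) ≤ ∑ d ∈ (∏ p ∈ P, p).divisors, θp d * ∏ p ∈ d.primeFactors, g p
  gp1 : ∀ g : ℕ → ℝ, Dn κ P g →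
    ∑ d ∈ (∏ p ∈ P, p).divisors, θp d * ∏ p ∈ d.primeFactors, g p ≤ (1 + ε) * ∏ p ∈ P, (1 - g p)
  gm0 : ∀ g : ℕ → ℝ, Dn κ P g →
    (1 - ε) * ∏ p ∈ P, (1 - g p) ≤ ∑ d ∈ (∏ p ∈ P, p).divisors, θm d * ∏ p ∈ d.primeFactors, g p
  gm1 : ∀ g : ℕ → ℝ, Dn κ P g →
    ∑ d ∈ (∏ p ∈ P, p).divisors, θm d * ∏ p ∈ d.primeFactors, g p ≤ ∏ p ∈ P, (1 - g p)

theorem XX_ind {P : Finset ℕ} {E : ℕ} (hP : ∀ p ∈ P, p.Prime ∧ p ≤ 2 ^ E) (h : ℕ → ℝ) :
    XX (BP P E) h E = ∏ p ∈ P, (1 - h p) := by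
  classical
  unfold XX
  rw [← Finset.prod_biUnion]
  · congr 1
    exact BP_cover hP
  · intro i _ j _ hij
    exact BP_disj P hij

theorem ind_eq {P : Finset ℕ} (a : ℕ) :
    ∏ p ∈ P, (1 - (if p ∣ a then (1 : ℝ) else 0)) = if ∀ p ∈ P, ¬ p ∣ a then (1 : ℝ) else 0 := by
  classical
  split_ifs with h
  · refine Finset.prod_eq_one fun p hp => ?_
    rw [if_neg (h p hp), sub_zero]
  · push Not at h
    obtain ⟨p, hp, hpa⟩ := h
    exact Finset.prod_eq_zero hp (by rw [if_pos hpa, sub_self])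

/-- a version for the upper bound with a crude error, and `0` as lower bound -/
theorem flw_crude {κ : ℝ} (hκ : 0 ≤ κ) (b E : ℕ) {P : Finset ℕ} (hP : ∀ p ∈ P, p.Prime ∧ p ≤ 2 ^ E) {ε : ℝ}
    (hε : Real.exp (∑ i ∈ range E, er (11 * κ) b i) ≤ ε) :
    FW κ ε P (2 ^ (E * (4 * b + 6))) (tt (cp (BP P E) (fun i => b + i) E)) (fun _ => 0) := by
  classical
  have hP' : ∀ p ∈ P, p.Prime := fun p hp => (hP p hp).1
  set Bk := BP P E with hBk
  set bb : ℕ → ℕ := fun i => b + i with hbb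
  have hcov : PP Bk E = P := BP_cover hP
  have hdis : ∀ i < E, ∀ j < E, i ≠ j → Disjoint (Bk i) (Bk j) := fun i _ j _ hij => BP_disj P hij
  have hM : ∀ i < E, 1 ≤ 2 ^ (E / 2 ^ i) := fun i _ => Nat.one_le_two_pow
  have hB : ∀ i < E, ∀ p ∈ Bk i, p ≤ 2 ^ (E / 2 ^ i) := fun i _ p hp => (mem_BP.1 hp).2.2
  have hlev := level E b E
  have scp : ∀ Q, cp Bk bb E Q ≠ 0 → Q ⊆ P ∧ ∏ p ∈ Q, p ≤ 2 ^ (E * (4 * b + 6)) := by
    intro Q hQ
    obtain ⟨h1, h2⟩ := cp_supp (M := fun i => 2 ^ (E / 2 ^ i)) hM hB hQ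
    rw [hcov] at h1
    exact ⟨h1, h2.trans hlev⟩
  have hin : ∀ a : ℕ, ∀ i < E, ∀ p ∈ Bk i, 0 ≤ (if p ∣ a then (1 : ℝ) else 0) ∧ (if p ∣ a then (1 : ℝ) else 0) ≤ 1 := by
    intro a i _ p _
    split_ifs <;> norm_num
  have hgd : ∀ g : ℕ → ℝ, Dn κ P g → ∀ i < E, ∀ p ∈ Bk i, 0 ≤ g p ∧ g p ≤ 1 := by
    intro g hg i _ p hp
    have hp' := (mem_BP.1 hp).1
    exact ⟨hg.nn p hp', (hg.half p hp').trans (by norm_num)⟩
  have hes : ∀ g : ℕ → ℝ, Dn κ P g → ∀ i < E, Pool.Agent.MP_f32cb9_nt.esy g (2 * bb i + 1) (Bk i) ≤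
      er (11 * κ) b i * ∏ p ∈ Bk i, (1 - g p) := fun g hg i _ => BP_esy hκ hP' hg E i b
  have hS0 : 0 ≤ ∑ i ∈ range E, er (11 * κ) b i := Finset.sum_nonneg fun i _ => er_nonneg (by positivity) b i
  have hε1 : 1 ≤ ε := (Real.one_le_exp hS0).trans hε
  have hV : ∀ g : ℕ → ℝ, Dn κ P g → 0 ≤ ∏ p ∈ P, (1 - g p) := fun g hg =>
    Finset.prod_nonneg fun p hp => by linarith [hg.half p hp]
  refine ⟨tt_abs (abs_cp_le E), fun d => by simp, fun d hd => tt_supp scp hd, fun d hd => absurd rfl hd,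
    ?_, ?_, ?_, ?_, ?_, ?_⟩
  · intro a ha
    rw [tt_ind (fun Q hQ => (scp Q hQ).1) hP' ha, ← ind_eq, ← XX_ind hP]
    have h1 := XX_le_GG (b := bb) (hin a)
    rw [GG_eq _ hdis, hcov] at h1
    exact h1
  · intro a _
    rw [Finset.sum_const_zero]
    split_ifs <;> norm_num
  · intro g hg
    rw [tt_dens _ hP' g, ← XX_ind hP]
    have h1 := XX_le_GG (b := bb) (hgd g hg)
    rw [GG_eq _ hdis, hcov] at h1
    exact h1
  · intro g hg
    rw [tt_dens _ hP' g, ← XX_ind hP]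
    have h1 := GG_le (b := bb) (er (11 * κ) b) (hgd g hg) (hes g hg)
    rw [GG_eq _ hdis, hcov] at h1
    refine h1.trans (mul_le_mul_of_nonneg_right ?_ (XX_nonneg (hgd g hg)))
    linarith
  · intro g hg
    simp only [zero_mul, Finset.sum_const_zero]
    exact mul_nonpos_of_nonpos_of_nonneg (by linarith) (hV g hg)
  · intro g hg
    simp only [zero_mul, Finset.sum_const_zero]
    exact hV g hg

/-- the core of the fundamental lemma -/
theorem flw_core {κ : ℝ} (hκ : 0 ≤ κ) (b E : ℕ) {P : Finset ℕ} (hP : ∀ p ∈ P, p.Prime ∧ p ≤ 2 ^ E) {ε : ℝ}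
    (hS1 : ∑ i ∈ range E, er (11 * κ) b i ≤ ε / 2) (hS2 : ∑ i ∈ range E, er (11 * κ) b i ≤ 1 / 4) :
    FW κ ε P (2 ^ (E * (4 * b + 6))) (tt (cp (BP P E) (fun i => b + i) E)) (tt (cm (BP P E) (fun i => b + i) E)) := by
  classical
  have hP' : ∀ p ∈ P, p.Prime := fun p hp => (hP p hp).1
  set Bk := BP P E with hBk
  set bb : ℕ → ℕ := fun i => b + i with hbb
  have hcov : PP Bk E = P := BP_cover hP
  have hdis : ∀ i < E, ∀ j < E, i ≠ j → Disjoint (Bk i) (Bk j) := fun i _ j _ hij => BP_disj P hij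
  have hM : ∀ i < E, 1 ≤ 2 ^ (E / 2 ^ i) := fun i _ => Nat.one_le_two_pow
  have hB : ∀ i < E, ∀ p ∈ Bk i, p ≤ 2 ^ (E / 2 ^ i) := fun i _ p hp => (mem_BP.1 hp).2.2
  have hlev := level E b E
  have scp : ∀ Q, cp Bk bb E Q ≠ 0 → Q ⊆ P ∧ ∏ p ∈ Q, p ≤ 2 ^ (E * (4 * b + 6)) := by
    intro Q hQ
    obtain ⟨h1, h2⟩ := cp_supp (M := fun i => 2 ^ (E / 2 ^ i)) hM hB hQ
    rw [hcov] at h1
    exact ⟨h1, h2.trans hlev⟩
  have scm : ∀ Q, cm Bk bb E Q ≠ 0 → Q ⊆ P ∧ ∏ p ∈ Q, p ≤ 2 ^ (E * (4 * b + 6)) := by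
    intro Q hQ
    obtain ⟨h1, h2⟩ := cm_supp (M := fun i => 2 ^ (E / 2 ^ i)) hM hB hQ
    rw [hcov] at h1
    exact ⟨h1, h2.trans hlev⟩
  have hin : ∀ a : ℕ, ∀ i < E, ∀ p ∈ Bk i, 0 ≤ (if p ∣ a then (1 : ℝ) else 0) ∧ (if p ∣ a then (1 : ℝ) else 0) ≤ 1 := by
    intro a i _ p _
    split_ifs <;> norm_num
  have hgd : ∀ g : ℕ → ℝ, Dn κ P g → ∀ i < E, ∀ p ∈ Bk i, 0 ≤ g p ∧ g p ≤ 1 := by
    intro g hg i _ p hp
    have hp' := (mem_BP.1 hp).1
    exact ⟨hg.nn p hp', (hg.half p hp').trans (by norm_num)⟩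
  have hes : ∀ g : ℕ → ℝ, Dn κ P g → ∀ i < E, Pool.Agent.MP_f32cb9_nt.esy g (2 * bb i + 1) (Bk i) ≤
      er (11 * κ) b i * ∏ p ∈ Bk i, (1 - g p) := fun g hg i _ => BP_esy hκ hP' hg E i b
  have hS0 : 0 ≤ ∑ i ∈ range E, er (11 * κ) b i := Finset.sum_nonneg fun i _ => er_nonneg (by positivity) b i
  refine ⟨tt_abs (abs_cp_le E), tt_abs (abs_cm_le E), fun d hd => tt_supp scp hd, fun d hd => tt_supp scm hd,
    ?_, ?_, ?_, ?_, ?_, ?_⟩
  · intro a ha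
    rw [tt_ind (fun Q hQ => (scp Q hQ).1) hP' ha, ← ind_eq, ← XX_ind hP]
    have h1 := XX_le_GG (b := bb) (hin a)
    rw [GG_eq _ hdis, hcov] at h1
    exact h1
  · intro a ha
    rw [tt_ind (fun Q hQ => (scm Q hQ).1) hP' ha, ← ind_eq, ← XX_ind hP]
    have h1 := HH_le_XX (b := bb) (hin a)
    rw [HH_eq _ hdis, hcov] at h1
    exact h1
  · intro g hg
    rw [tt_dens _ hP' g, ← XX_ind hP]
    have h1 := XX_le_GG (b := bb) (hgd g hg)
    rw [GG_eq _ hdis, hcov] at h1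
    exact h1
  · intro g hg
    rw [tt_dens _ hP' g, ← XX_ind hP]
    have h1 := GG_le (b := bb) (er (11 * κ) b) (hgd g hg) (hes g hg)
    rw [GG_eq _ hdis, hcov] at h1
    refine h1.trans (mul_le_mul_of_nonneg_right ?_ (XX_nonneg (hgd g hg)))
    have h2 := Real.exp_bound_div_one_sub_of_interval hS0 (by linarith : ∑ i ∈ range E, er (11 * κ) b i < 1)
    refine h2.trans ?_
    set S := ∑ i ∈ range E, er (11 * κ) b i with hSd
    rw [div_le_iff₀ (by linarith)]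
    nlinarith
  · intro g hg
    rw [tt_dens _ hP' g, ← XX_ind hP]
    have h1 := HH_ge (b := bb) (er (11 * κ) b) (fun i => er_nonneg (by positivity) b i) hS2 (hgd g hg) (hes g hg)
    rw [HH_eq _ hdis, hcov] at h1
    refine le_trans (mul_le_mul_of_nonneg_right ?_ (XX_nonneg (hgd g hg))) h1
    linarith
  · intro g hg
    rw [tt_dens _ hP' g, ← XX_ind hP]
    have h1 := HH_le_XX (b := bb) (hgd g hg)
    rw [HH_eq _ hdis, hcov] at h1
    exact h1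

/-- the bound for the sum of the errors -/
noncomputable def S0 (K : ℝ) (b : ℕ) : ℝ := Real.exp (3 * K) * (K ^ (2 * b + 1) / ((2 * b + 1).factorial : ℝ))

theorem er_sum {K : ℝ} (hK : 0 ≤ K) (b m : ℕ) : ∑ i ∈ range m, er K b i ≤ S0 K b := by
  calc ∑ i ∈ range m, er K b i
      ≤ ∑ i ∈ range m, Real.exp (2 * K) * (K ^ (2 * b + 1) / ((2 * b + 1).factorial : ℝ)) *
          (K ^ (2 * i) / ((2 * i).factorial : ℝ)) := sum_le_sum fun i _ => er_term hK b i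
    _ = Real.exp (2 * K) * (K ^ (2 * b + 1) / ((2 * b + 1).factorial : ℝ)) *
          ∑ i ∈ range m, (K ^ (2 * i) / ((2 * i).factorial : ℝ)) := by rw [mul_sum]
    _ ≤ Real.exp (2 * K) * (K ^ (2 * b + 1) / ((2 * b + 1).factorial : ℝ)) * Real.exp K :=
        mul_le_mul_of_nonneg_left (even_sum hK m) (by positivity)
    _ = S0 K b := by
        unfold S0
        rw [show 3 * K = 2 * K + K by ring, Real.exp_add]
        ring

theorem S0_nonneg {K : ℝ} (hK : 0 ≤ K) (b : ℕ) : 0 ≤ S0 K b := by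
  unfold S0
  positivity

/-- the relative error of the weights with truncation `b` -/
noncomputable def del (κ : ℝ) (b : ℕ) : ℝ := if S0 (11 * κ) b ≤ 1 / 4 then 2 * S0 (11 * κ) b else Real.exp (S0 (11 * κ) b)

theorem del_nonneg {κ : ℝ} (hκ : 0 ≤ κ) (b : ℕ) : 0 ≤ del κ b := by
  unfold del
  have := S0_nonneg (K := 11 * κ) (by positivity) b
  split_ifs <;> positivity

theorem S0_tendsto {K : ℝ} (hK : 0 ≤ K) (A : ℕ) : Filter.Tendsto (fun b : ℕ => (b : ℝ) ^ A * S0 K b) Filter.atTop (nhds 0) := by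
  -- `b ^ A ≤ A! * exp b ≤ A! * e ^ (2 b + 1)`
  have ht := (FloorSemiring.tendsto_pow_div_factorial_atTop (Real.exp 1 * K)).comp
    (Filter.tendsto_atTop_mono (fun b : ℕ => (by omega : b ≤ 2 * b + 1)) Filter.tendsto_id)
  have ht2 := ht.const_mul ((A.factorial : ℝ) * Real.exp (3 * K))
  rw [mul_zero] at ht2
  refine squeeze_zero (fun b => mul_nonneg (by positivity) (S0_nonneg hK b)) (fun b => ?_) ht2
  have h1 : (b : ℝ) ^ A ≤ (A.factorial : ℝ) * Real.exp 1 ^ (2 * b + 1) := by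
    have h2 : (b : ℝ) ^ A / (A.factorial : ℝ) ≤ Real.exp b := by
      have h3 := Real.sum_le_exp_of_nonneg (Nat.cast_nonneg b : (0 : ℝ) ≤ b) (A + 1)
      refine le_trans ?_ h3
      exact Finset.single_le_sum (f := fun i : ℕ => (b : ℝ) ^ i / (i.factorial : ℝ)) (fun i _ => by positivity)
        (Finset.mem_range.2 (Nat.lt_succ_self A))
    have h4 : (0 : ℝ) < (A.factorial : ℝ) := by exact_mod_cast Nat.factorial_pos A
    rw [div_le_iff₀ h4] at h2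
    have h5 : Real.exp b ≤ Real.exp 1 ^ (2 * b + 1) := by
      rw [← Real.exp_nat_mul]
      apply Real.exp_le_exp.2
      push_cast
      have : (0 : ℝ) ≤ (b : ℝ) := Nat.cast_nonneg b
      linarith
    calc (b : ℝ) ^ A ≤ Real.exp b * (A.factorial : ℝ) := h2
      _ ≤ Real.exp 1 ^ (2 * b + 1) * (A.factorial : ℝ) := mul_le_mul_of_nonneg_right h5 h4.le
      _ = _ := by ring
  calc (b : ℝ) ^ A * S0 K b ≤ ((A.factorial : ℝ) * Real.exp 1 ^ (2 * b + 1)) * S0 K b :=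
        mul_le_mul_of_nonneg_right h1 (S0_nonneg hK b)
    _ = (A.factorial : ℝ) * Real.exp (3 * K) * ((fun n : ℕ => (Real.exp 1 * K) ^ n / (n.factorial : ℝ)) (2 * b + 1)) := by
        unfold S0
        simp only
        rw [mul_pow]
        ring

theorem del_tendsto {κ : ℝ} (hκ : 0 ≤ κ) (A : ℕ) :
    Filter.Tendsto (fun b : ℕ => (b : ℝ) ^ A * del κ b) Filter.atTop (nhds 0) := by
  have hK : 0 ≤ 11 * κ := by positivity
  have h1 := (S0_tendsto hK A).const_mul 2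
  rw [mul_zero] at h1
  have h0 := S0_tendsto hK 0
  have h2 : ∀ᶠ b : ℕ in Filter.atTop, S0 (11 * κ) b ≤ 1 / 4 := by
    have h3 := h0.eventually (gt_mem_nhds (show (0 : ℝ) < 1 / 4 by norm_num))
    filter_upwards [h3] with b hb
    simpa using hb.le
  refine h1.congr' ?_
  filter_upwards [h2] with b hb
  unfold del
  rw [if_pos hb]
  ring

/-- [FLW] Fundamental lemma weights with truncation `b`: the level is `2^(E (4b+6))`, the relative error `del κ b` tends to `0`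
faster than any power of `b`. -/
theorem flw_b (κ : ℝ) (hκ : 0 ≤ κ) (b E : ℕ) (P : Finset ℕ) (hP : ∀ p ∈ P, p.Prime ∧ p ≤ 2 ^ E) :
    ∃ θp θm : ℕ → ℝ, FW κ (del κ b) P (2 ^ (E * (4 * b + 6))) θp θm := by
  have hK : 0 ≤ 11 * κ := by positivity
  have h1 := er_sum hK b E
  unfold del
  split_ifs with h
  · exact ⟨_, _, flw_core hκ b E hP (by linarith) (h1.trans h)⟩
  · exact ⟨_, _, flw_crude hκ b E hP (Real.exp_le_exp.2 h1)⟩

/-- [FLW] Fundamental lemma weights: for every `κ, ε` there is `B` such that for every `E` and every set `P` of primes `≤ 2^E`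
there are weights of level `2^(E B)`. -/
theorem flw (κ ε : ℝ) (hκ : 0 ≤ κ) (hε : 0 < ε) : ∃ B : ℕ, ∀ (E : ℕ) (P : Finset ℕ), (∀ p ∈ P, p.Prime ∧ p ≤ 2 ^ E) →
    ∃ θp θm : ℕ → ℝ, FW κ ε P (2 ^ (E * B)) θp θm := by
  obtain ⟨b, hb⟩ := er_tail (K := 11 * κ) (by positivity) (min (ε / 2) (1 / 4)) (lt_min (by positivity) (by norm_num))
  exact ⟨4 * b + 6, fun E P hP => ⟨_, _, flw_core hκ b E hP ((hb E).trans (min_le_left _ _)) ((hb E).trans (min_le_right _ _))⟩⟩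

end Pool.Agent.PTWB
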