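import Pool.Agent.MP_f32cb9_nt.Dens

/-!
# [PTWB] Fundamental lemma weights as divisor sums: the block sieve for a general weight
-/

set_option autoImplicit false

open Finset

namespace Pool.Agent.PTWB

open Pool.Agent.Lib.helper94.ANT (bonS bonS_empty bonS_zero bonS_insert bonferroni)
open Pool.Agent.MP_f32cb9_nt (esy esy_nonneg esy_le bonS_succ_eq)

variable (B : ℕ → Finset ℕ) (b : ℕ → ℕ)

/-- the full product over the first `m` blocks -/
noncomputable def XX (h : ℕ → ℝ) (m : ℕ) : ℝ := ∏ i ∈ range m, ∏ p ∈ B i, (1 - h p)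

/-- the upper bound polynomial -/
noncomputable def GG (h : ℕ → ℝ) : ℕ → ℝ
  | 0 => 1
  | m + 1 => GG h m * bonS h (2 * b m) (B m)

/-- the lower bound polynomial -/
noncomputable def HH (h : ℕ → ℝ) : ℕ → ℝ
  | 0 => 1
  | m + 1 => HH h m * bonS h (2 * b m) (B m) - GG B b h m * esy h (2 * b m + 1) (B m)

theorem XX_succ (h : ℕ → ℝ) (m : ℕ) : XX B h (m + 1) = XX B h m * ∏ p ∈ B m, (1 - h p) := by
  unfold XX
  rw [Finset.prod_range_succ]

variable {B b}

theorem XX_nonneg {h : ℕ → ℝ} {m : ℕ} (hd : ∀ i < m, ∀ p ∈ B i, 0 ≤ h p ∧ h p ≤ 1) : 0 ≤ XX B h m := by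
  unfold XX
  refine Finset.prod_nonneg fun i hi => Finset.prod_nonneg fun p hp => ?_
  linarith [(hd i (mem_range.1 hi) p hp).2]

theorem blk {h : ℕ → ℝ} {C : Finset ℕ} (k : ℕ) (hd : ∀ p ∈ C, 0 ≤ h p ∧ h p ≤ 1) :
    ∏ p ∈ C, (1 - h p) ≤ bonS h (2 * k) C ∧
    bonS h (2 * k) C - esy h (2 * k + 1) C ≤ ∏ p ∈ C, (1 - h p) := by
  have h1 := bonferroni h C hd (2 * k)
  have h2 := bonferroni h C hd (2 * k + 1)
  rw [bonS_succ_eq, pow_succ, pow_mul] at h2
  rw [pow_mul] at h1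
  norm_num at h1 h2
  constructor <;> linarith

theorem blk_nonneg {h : ℕ → ℝ} {C : Finset ℕ} (hd : ∀ p ∈ C, 0 ≤ h p ∧ h p ≤ 1) :
    0 ≤ ∏ p ∈ C, (1 - h p) :=
  Finset.prod_nonneg fun p hp => by linarith [(hd p hp).2]

theorem XX_le_GG {h : ℕ → ℝ} {m : ℕ} (hd : ∀ i < m, ∀ p ∈ B i, 0 ≤ h p ∧ h p ≤ 1) :
    XX B h m ≤ GG B b h m := by
  induction m with
  | zero => simp [XX, GG]
  | succ m ih =>
    have hd' : ∀ i < m, ∀ p ∈ B i, 0 ≤ h p ∧ h p ≤ 1 := fun i hi => hd i (by omega)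
    have h1 := (blk (b m) (hd m (by omega))).1
    have h2 := blk_nonneg (hd m (by omega))
    have h3 := XX_nonneg hd'
    rw [XX_succ, GG]
    exact mul_le_mul (ih hd') h1 h2 (h3.trans (ih hd'))

theorem HH_le_XX {h : ℕ → ℝ} {m : ℕ} (hd : ∀ i < m, ∀ p ∈ B i, 0 ≤ h p ∧ h p ≤ 1) :
    HH B b h m ≤ XX B h m := by
  induction m with
  | zero => simp [XX, HH]
  | succ m ih =>
    have hd' : ∀ i < m, ∀ p ∈ B i, 0 ≤ h p ∧ h p ≤ 1 := fun i hi => hd i (by omega)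
    obtain ⟨h1, h1'⟩ := blk (b m) (hd m (by omega))
    have h2 := blk_nonneg (hd m (by omega))
    have h3 := XX_nonneg hd'
    have h4 := XX_le_GG (b := b) hd'
    have h5 : 0 ≤ esy h (2 * b m + 1) (B m) := esy_nonneg _ _ _ fun p hp => (hd m (by omega) p hp).1
    rw [XX_succ, HH]
    set σ := bonS h (2 * b m) (B m) with hσ
    set u := esy h (2 * b m + 1) (B m) with hu
    set c := ∏ p ∈ B m, (1 - h p) with hc
    have h6 : HH B b h m * σ ≤ XX B h m * σ := mul_le_mul_of_nonneg_right (ih hd') (h2.trans h1)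
    have h7 : XX B h m * u ≤ GG B b h m * u := mul_le_mul_of_nonneg_right h4 h5
    have h8 : XX B h m * (σ - u) ≤ XX B h m * c := mul_le_mul_of_nonneg_left h1' h3
    nlinarith

theorem GG_le {h : ℕ → ℝ} (e : ℕ → ℝ) {m : ℕ} (hd : ∀ i < m, ∀ p ∈ B i, 0 ≤ h p ∧ h p ≤ 1)
    (hU : ∀ i < m, esy h (2 * b i + 1) (B i) ≤ e i * ∏ p ∈ B i, (1 - h p)) :
    GG B b h m ≤ Real.exp (∑ i ∈ range m, e i) * XX B h m := by
  induction m with
  | zero => simp [GG, XX]
  | succ m ih =>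
    have hd' : ∀ i < m, ∀ p ∈ B i, 0 ≤ h p ∧ h p ≤ 1 := fun i hi => hd i (by omega)
    have ih1 := ih hd' (fun i hi => hU i (by omega))
    have hX := XX_nonneg hd'
    have hG : 0 ≤ GG B b h m := hX.trans (XX_le_GG hd')
    obtain ⟨h1, h2⟩ := blk (b m) (hd m (by omega))
    have h3 := hU m (by omega)
    have hV := blk_nonneg (hd m (by omega))
    have hT0 : 0 ≤ bonS h (2 * b m) (B m) := hV.trans h1
    have hT : bonS h (2 * b m) (B m) ≤ Real.exp (e m) * ∏ p ∈ B m, (1 - h p) := by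
      have h4 := Real.add_one_le_exp (e m)
      have h5 := mul_le_mul_of_nonneg_right h4 hV
      linarith
    rw [GG, Finset.sum_range_succ, Real.exp_add, XX_succ]
    calc GG B b h m * bonS h (2 * b m) (B m)
        ≤ (Real.exp (∑ i ∈ range m, e i) * XX B h m) * (Real.exp (e m) * ∏ p ∈ B m, (1 - h p)) :=
          mul_le_mul ih1 hT hT0 (by positivity)
      _ = _ := by ring

theorem HH_ge {h : ℕ → ℝ} (e : ℕ → ℝ) (he : ∀ i, 0 ≤ e i) {m : ℕ} (hs : ∑ i ∈ range m, e i ≤ 1 / 4)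
    (hd : ∀ i < m, ∀ p ∈ B i, 0 ≤ h p ∧ h p ≤ 1)
    (hU : ∀ i < m, esy h (2 * b i + 1) (B i) ≤ e i * ∏ p ∈ B i, (1 - h p)) :
    (1 - 2 * ∑ i ∈ range m, e i) * XX B h m ≤ HH B b h m := by
  induction m with
  | zero => simp [HH, XX]
  | succ m ih =>
    have hs' : ∑ i ∈ range m, e i ≤ 1 / 4 := by
      rw [Finset.sum_range_succ] at hs
      linarith [he m]
    have hd' : ∀ i < m, ∀ p ∈ B i, 0 ≤ h p ∧ h p ≤ 1 := fun i hi => hd i (by omega)
    have hU' : ∀ i < m, esy h (2 * b i + 1) (B i) ≤ e i * ∏ p ∈ B i, (1 - h p) :=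
      fun i hi => hU i (by omega)
    have ih' := ih hs' hd' hU'
    obtain ⟨h1, h2⟩ := blk (b m) (hd m (by omega))
    have h3 := hU m (by omega)
    have g1 := GG_le e hd' hU'
    have hV := blk_nonneg (hd m (by omega))
    have hVV := XX_nonneg hd'
    have hE : Real.exp (∑ i ∈ range m, e i) ≤ 2 := by
      have h4 : Real.exp (∑ i ∈ range m, e i) ≤ Real.exp (1 / 4) := Real.exp_le_exp.2 hs'
      have h5 : Real.exp (1 / 4) ≤ 1 / (1 - 1 / 4) :=
        Real.exp_bound_div_one_sub_of_interval (by norm_num) (by norm_num)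
      linarith [show (1 : ℝ) / (1 - 1 / 4) ≤ 2 by norm_num]
    rw [HH, XX_succ, Finset.sum_range_succ]
    set S := ∑ i ∈ range m, e i with hS
    have hpos : 0 ≤ (1 - 2 * S) * XX B h m := mul_nonneg (by linarith) hVV
    have k1 : (1 - 2 * S) * XX B h m * ∏ p ∈ B m, (1 - h p) ≤ HH B b h m * bonS h (2 * b m) (B m) :=
      mul_le_mul ih' h1 hV (hpos.trans ih')
    have k2 : GG B b h m * esy h (2 * b m + 1) (B m) ≤
        (2 * XX B h m) * (e m * ∏ p ∈ B m, (1 - h p)) := by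
      apply mul_le_mul _ h3 (esy_nonneg _ _ _ fun p hp => (hd m (by omega) p hp).1) (by positivity)
      exact g1.trans (mul_le_mul_of_nonneg_right hE hVV)
    nlinarith

end Pool.Agent.PTWB
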