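import Pool.Agent.PTWB.FW1

/-!
# [PTWB] the coefficients of the block sieve
-/

set_option autoImplicit false

open Finset

namespace Pool.Agent.PTWB

open Pool.Agent.Lib.helper94.ANT (bonS)
open Pool.Agent.MP_f32cb9_nt (esy PP PP_succ mem_PP disj_PP)

variable (B : ℕ → Finset ℕ) (b : ℕ → ℕ)

/-- the coefficients of the upper bound polynomial -/
noncomputable def cp : ℕ → Finset ℕ → ℝ
  | 0, Q => if Q = ∅ then 1 else 0
  | m + 1, Q => cp m (Q \ B m) * (if (Q ∩ B m).card ≤ 2 * b m then (-1) ^ (Q ∩ B m).card else 0)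

/-- the coefficients of the lower bound polynomial -/
noncomputable def cm : ℕ → Finset ℕ → ℝ
  | 0, Q => if Q = ∅ then 1 else 0
  | m + 1, Q => cm m (Q \ B m) * (if (Q ∩ B m).card ≤ 2 * b m then (-1) ^ (Q ∩ B m).card else 0) -
      cp B b m (Q \ B m) * (if (Q ∩ B m).card = 2 * b m + 1 then 1 else 0)

variable {B b}

theorem sum_powerset_union {S T : Finset ℕ} (h : Disjoint S T) (F : Finset ℕ → ℝ) :
    ∑ Q ∈ (S ∪ T).powerset, F Q = ∑ x ∈ S.powerset, ∑ y ∈ T.powerset, F (x ∪ y) := by
  classical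
  rw [← Finset.sum_product']
  symm
  refine Finset.sum_nbij' (fun c => c.1 ∪ c.2) (fun Q => (Q \ T, Q ∩ T)) ?_ ?_ ?_ ?_ ?_
  · intro c hc
    rw [Finset.mem_product, Finset.mem_powerset, Finset.mem_powerset] at hc
    rw [Finset.mem_powerset]
    exact Finset.union_subset_union hc.1 hc.2
  · intro Q hQ
    rw [Finset.mem_powerset] at hQ
    rw [Finset.mem_product, Finset.mem_powerset, Finset.mem_powerset]
    refine ⟨?_, Finset.inter_subset_right⟩
    intro x hx
    rw [Finset.mem_sdiff] at hx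
    rcases Finset.mem_union.1 (hQ hx.1) with h1 | h1
    · exact h1
    · exact absurd h1 hx.2
  · rintro ⟨x, y⟩ hc
    rw [Finset.mem_product, Finset.mem_powerset, Finset.mem_powerset] at hc
    obtain ⟨h1, h2⟩ := hc
    simp only at h1 h2
    have hd : Disjoint x T := h.mono_left h1
    refine Prod.ext ?_ ?_
    · simp only
      ext z
      rw [Finset.mem_sdiff, Finset.mem_union]
      constructor
      · rintro ⟨hz | hz, hn⟩
        · exact hz
        · exact absurd (h2 hz) hn
      · intro hz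
        exact ⟨Or.inl hz, fun hn => (Finset.disjoint_left.1 hd hz) hn⟩
    · simp only
      ext z
      rw [Finset.mem_inter, Finset.mem_union]
      constructor
      · rintro ⟨hz | hz, hn⟩
        · exact absurd hn (Finset.disjoint_left.1 hd hz)
        · exact hz
      · intro hz
        exact ⟨Or.inr hz, h2 hz⟩
  · intro Q hQ
    simp only
    exact Finset.sdiff_union_inter Q T
  · intro c _
    rfl

theorem split_union {S T x y : Finset ℕ} (h : Disjoint S T) (hx : x ⊆ S) (hy : y ⊆ T) :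
    (x ∪ y) \ T = x ∧ (x ∪ y) ∩ T = y := by
  have hd : Disjoint x T := h.mono_left hx
  constructor
  · ext z
    rw [Finset.mem_sdiff, Finset.mem_union]
    constructor
    · rintro ⟨hz | hz, hn⟩
      · exact hz
      · exact absurd (hy hz) hn
    · intro hz
      exact ⟨Or.inl hz, fun hn => (Finset.disjoint_left.1 hd hz) hn⟩
  · ext z
    rw [Finset.mem_inter, Finset.mem_union]
    constructor
    · rintro ⟨hz | hz, hn⟩
      · exact absurd hn (Finset.disjoint_left.1 hd hz)
      · exact hz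
    · intro hz
      exact ⟨Or.inr hz, hy hz⟩

theorem esy_eq (h : ℕ → ℝ) (k : ℕ) (C : Finset ℕ) :
    esy h k C = ∑ y ∈ C.powerset, (if y.card = k then 1 else 0) * ∏ p ∈ y, h p := by
  classical
  unfold esy
  have e : C.powersetCard k = C.powerset.filter (fun Q => Q.card = k) := by
    ext Q; simp [mem_powersetCard]
  rw [e, Finset.sum_filter]
  refine Finset.sum_congr rfl fun y _ => ?_
  split_ifs <;> ring

theorem bonS_eq (h : ℕ → ℝ) (k : ℕ) (C : Finset ℕ) :
    bonS h k C = ∑ y ∈ C.powerset, (if y.card ≤ k then (-1) ^ y.card else 0) * ∏ p ∈ y, h p := by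
  unfold bonS
  refine Finset.sum_congr rfl fun y _ => ?_
  split_ifs <;> ring

theorem GG_eq (h : ℕ → ℝ) {m : ℕ} (hdis : ∀ i < m, ∀ j < m, i ≠ j → Disjoint (B i) (B j)) :
    GG B b h m = ∑ Q ∈ (PP B m).powerset, cp B b m Q * ∏ p ∈ Q, h p := by
  classical
  induction m with
  | zero => simp [GG, cp, PP]
  | succ m ih =>
    have ih' := ih (fun i hi j hj => hdis i (by omega) j (by omega))
    have hd := disj_PP B hdis
    rw [GG, ih', PP_succ, sum_powerset_union hd, bonS_eq, Finset.sum_mul_sum]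
    refine Finset.sum_congr rfl fun x hx => Finset.sum_congr rfl fun y hy => ?_
    rw [Finset.mem_powerset] at hx hy
    obtain ⟨e1, e2⟩ := split_union hd hx hy
    rw [cp, e1, e2, Finset.prod_union (hd.mono hx hy)]
    ring

theorem HH_eq (h : ℕ → ℝ) {m : ℕ} (hdis : ∀ i < m, ∀ j < m, i ≠ j → Disjoint (B i) (B j)) :
    HH B b h m = ∑ Q ∈ (PP B m).powerset, cm B b m Q * ∏ p ∈ Q, h p := by
  classical
  induction m with
  | zero => simp [HH, cm, PP]
  | succ m ih =>
    have hdis' : ∀ i < m, ∀ j < m, i ≠ j → Disjoint (B i) (B j) :=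
      fun i hi j hj => hdis i (by omega) j (by omega)
    have ih' := ih hdis'
    have hd := disj_PP B hdis
    rw [HH, ih', GG_eq h hdis', PP_succ, sum_powerset_union hd, bonS_eq, esy_eq, Finset.sum_mul_sum,
      Finset.sum_mul_sum, ← Finset.sum_sub_distrib]
    refine Finset.sum_congr rfl fun x hx => ?_
    rw [← Finset.sum_sub_distrib]
    refine Finset.sum_congr rfl fun y hy => ?_
    rw [Finset.mem_powerset] at hx hy
    obtain ⟨e1, e2⟩ := split_union hd hx hy
    rw [cm, e1, e2, Finset.prod_union (hd.mono hx hy)]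
    ring

theorem abs_cp_le (m : ℕ) (Q : Finset ℕ) : |cp B b m Q| ≤ 1 := by
  induction m generalizing Q with
  | zero =>
    rw [cp]
    split_ifs <;> simp
  | succ m ih =>
    rw [cp, abs_mul]
    have h1 := ih (Q \ B m)
    split_ifs
    · rw [abs_pow, abs_neg, abs_one, one_pow, mul_one]
      exact h1
    · simp

theorem abs_cm_le (m : ℕ) (Q : Finset ℕ) : |cm B b m Q| ≤ 1 := by
  induction m generalizing Q with
  | zero =>
    rw [cm]
    split_ifs <;> simp
  | succ m ih =>
    rw [cm]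
    have h1 := ih (Q \ B m)
    have h2 := abs_cp_le (B := B) (b := b) m (Q \ B m)
    by_cases hc : (Q ∩ B m).card ≤ 2 * b m
    · rw [if_pos hc, if_neg (by omega), mul_zero, sub_zero, abs_mul, abs_pow, abs_neg, abs_one, one_pow, mul_one]
      exact h1
    · rw [if_neg hc, mul_zero, zero_sub, abs_neg, abs_mul]
      split_ifs
      · rw [abs_one, mul_one]
        exact h2
      · simp

theorem prod_le_level {Q C : Finset ℕ} {M k : ℕ} (hM : 1 ≤ M) (hC : ∀ p ∈ C, p ≤ M) (hk : (Q ∩ C).card ≤ k) :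
    ∏ p ∈ Q ∩ C, p ≤ M ^ k := by
  calc ∏ p ∈ Q ∩ C, p ≤ ∏ _p ∈ Q ∩ C, M :=
        Finset.prod_le_prod (fun _ _ => Nat.zero_le _) fun p hp => hC p (Finset.mem_inter.1 hp).2
    _ = M ^ (Q ∩ C).card := by rw [Finset.prod_const]
    _ ≤ M ^ k := Nat.pow_le_pow_right hM hk

theorem subset_succ {m : ℕ} {Q : Finset ℕ} (h : Q \ B m ⊆ PP B m) : Q ⊆ PP B (m + 1) := by
  classical
  rw [PP_succ]
  intro x hx
  rw [Finset.mem_union]
  by_cases hxB : x ∈ B m
  · exact Or.inr hxB
  · exact Or.inl (h (Finset.mem_sdiff.2 ⟨hx, hxB⟩))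

theorem cp_supp {m : ℕ} {Q : Finset ℕ} {M : ℕ → ℕ} (hM : ∀ i < m, 1 ≤ M i) (hB : ∀ i < m, ∀ p ∈ B i, p ≤ M i)
    (h : cp B b m Q ≠ 0) :
    Q ⊆ PP B m ∧ ∏ p ∈ Q, p ≤ ∏ i ∈ range m, M i ^ (2 * b i + 1) := by
  classical
  induction m generalizing Q with
  | zero =>
    rw [cp] at h
    split_ifs at h with h1
    · subst h1
      simp
    · exact absurd rfl h
  | succ m ih =>
    rw [cp] at h
    have h1 : cp B b m (Q \ B m) ≠ 0 := left_ne_zero_of_mul h
    have h2 := right_ne_zero_of_mul h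
    have h3 : (Q ∩ B m).card ≤ 2 * b m := by
      by_contra hc
      rw [if_neg hc] at h2
      exact h2 rfl
    obtain ⟨g1, g2⟩ := ih (fun i hi => hM i (by omega)) (fun i hi => hB i (by omega)) h1
    refine ⟨subset_succ g1, ?_⟩
    rw [← Finset.sdiff_union_inter Q (B m), Finset.prod_union (Finset.disjoint_sdiff_inter Q (B m)),
      Finset.prod_range_succ]
    exact Nat.mul_le_mul g2 (prod_le_level (hM m (by omega)) (hB m (by omega)) (by omega))

theorem cm_supp {m : ℕ} {Q : Finset ℕ} {M : ℕ → ℕ} (hM : ∀ i < m, 1 ≤ M i) (hB : ∀ i < m, ∀ p ∈ B i, p ≤ M i)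
    (h : cm B b m Q ≠ 0) :
    Q ⊆ PP B m ∧ ∏ p ∈ Q, p ≤ ∏ i ∈ range m, M i ^ (2 * b i + 1) := by
  classical
  induction m generalizing Q with
  | zero =>
    rw [cm] at h
    split_ifs at h with h1
    · subst h1
      simp
    · exact absurd rfl h
  | succ m ih =>
    rw [cm] at h
    have key : (Q \ B m ⊆ PP B m ∧ ∏ p ∈ Q \ B m, p ≤ ∏ i ∈ range m, M i ^ (2 * b i + 1)) ∧
        (Q ∩ B m).card ≤ 2 * b m + 1 := by
      by_cases hc : (Q ∩ B m).card ≤ 2 * b m
      · refine ⟨ih (fun i hi => hM i (by omega)) (fun i hi => hB i (by omega)) ?_, by omega⟩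
        intro h0
        apply h
        rw [h0, if_neg (by omega : ¬ (Q ∩ B m).card = 2 * b m + 1)]
        ring
      · have hc2 : (Q ∩ B m).card = 2 * b m + 1 := by
          by_contra hc3
          apply h
          rw [if_neg hc, if_neg hc3]
          ring
        refine ⟨cp_supp (b := b) (fun i hi => hM i (by omega)) (fun i hi => hB i (by omega)) ?_, by omega⟩
        intro h0
        apply h
        rw [h0, if_neg hc]
        ring
    obtain ⟨⟨g1, g2⟩, g3⟩ := key
    refine ⟨subset_succ g1, ?_⟩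
    rw [← Finset.sdiff_union_inter Q (B m), Finset.prod_union (Finset.disjoint_sdiff_inter Q (B m)),
      Finset.prod_range_succ]
    exact Nat.mul_le_mul g2 (prod_le_level (hM m (by omega)) (hB m (by omega)) g3)

end Pool.Agent.PTWB
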