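import Pool.Agent.PTWB.FW2
import Pool.Agent.SVP.FL1
import Pool.Agent.SVP.FL4

/-!
# [PTWB] blocks and numerics
-/

set_option autoImplicit false

open Finset

namespace Pool.Agent.PTWB

open Pool.Agent.Lib.helper94.ANT (bonS)
open Pool.Agent.MP_f32cb9_nt (esy esy_le PP mem_PP)
open Pool.Agent.SVP (Bl mem_Bl Bl_sum sum_lev_aux)

/-- the blocks of a set of primes -/
def BP (P : Finset ℕ) (E i : ℕ) : Finset ℕ := P.filter (fun p => 2 ^ (E / 2 ^ (i + 1)) < p ∧ p ≤ 2 ^ (E / 2 ^ i))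

theorem mem_BP {P : Finset ℕ} {E i p : ℕ} :
    p ∈ BP P E i ↔ p ∈ P ∧ 2 ^ (E / 2 ^ (i + 1)) < p ∧ p ≤ 2 ^ (E / 2 ^ i) := by
  unfold BP
  rw [Finset.mem_filter]

theorem BP_disj (P : Finset ℕ) {E i j : ℕ} (hij : i ≠ j) : Disjoint (BP P E i) (BP P E j) := by
  have key : ∀ i j : ℕ, i < j → Disjoint (BP P E i) (BP P E j) := by
    intro i j hlt
    rw [Finset.disjoint_left]
    intro p hp hq
    rw [mem_BP] at hp hq
    have h1 : E / 2 ^ j ≤ E / 2 ^ (i + 1) :=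
      Nat.div_le_div_left (Nat.pow_le_pow_right (by norm_num) hlt) (by positivity)
    have h2 : 2 ^ (E / 2 ^ j) ≤ 2 ^ (E / 2 ^ (i + 1)) := Nat.pow_le_pow_right (by norm_num) h1
    have h3 := hp.2.1
    have h4 := hq.2.2
    omega
  rcases lt_or_gt_of_ne hij with h | h
  · exact key i j h
  · exact (key j i h).symm

theorem BP_cover {P : Finset ℕ} {E : ℕ} (hP : ∀ p ∈ P, p.Prime ∧ p ≤ 2 ^ E) : PP (BP P E) E = P := by
  classical
  ext p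
  rw [mem_PP]
  constructor
  · rintro ⟨i, _, hi⟩
    exact (mem_BP.1 hi).1
  · intro hp
    obtain ⟨hpp, hpE⟩ := hP p hp
    have hend : 2 ^ (E / 2 ^ E) < p := by
      rw [Nat.div_eq_of_lt Nat.lt_two_pow_self, pow_zero]
      exact hpp.one_lt
    have hex : ∃ j, 2 ^ (E / 2 ^ j) < p := ⟨E, hend⟩
    obtain ⟨j, hj, hmin⟩ : ∃ j, 2 ^ (E / 2 ^ j) < p ∧ ∀ k < j, ¬ 2 ^ (E / 2 ^ k) < p :=
      ⟨Nat.find hex, Nat.find_spec hex, fun k hk => Nat.find_min hex hk⟩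
    have hjE : j ≤ E := by
      by_contra h
      exact hmin E (by omega) hend
    have hj0 : j ≠ 0 := by
      rintro rfl
      rw [pow_zero, Nat.div_one] at hj
      omega
    obtain ⟨i, rfl⟩ : ∃ i, j = i + 1 := ⟨j - 1, by omega⟩
    exact ⟨i, by omega, mem_BP.2 ⟨hp, hj, not_lt.1 (hmin i (by omega))⟩⟩

theorem BP_sum {P : Finset ℕ} (hP : ∀ p ∈ P, p.Prime) (E i : ℕ) : ∑ p ∈ BP P E i, (1 : ℝ) / p ≤ 11 := by
  classical
  have hsub : BP P E i ⊆ insert 2 (Bl E i) := by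
    intro p hp
    rw [mem_BP] at hp
    rw [Finset.mem_insert]
    by_cases h2 : p = 2
    · exact Or.inl h2
    · exact Or.inr (mem_Bl.2 ⟨h2, hp.2.1, hp.2.2, hP p hp.1⟩)
  have h2n : 2 ∉ Bl E i := fun h => (mem_Bl.1 h).1 rfl
  calc ∑ p ∈ BP P E i, (1 : ℝ) / p ≤ ∑ p ∈ insert 2 (Bl E i), (1 : ℝ) / p :=
        Finset.sum_le_sum_of_subset_of_nonneg hsub fun p _ _ => by positivity
    _ = (1 : ℝ) / (2 : ℕ) + ∑ p ∈ Bl E i, (1 : ℝ) / p := by rw [Finset.sum_insert h2n]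
    _ ≤ 11 := by
        have := Bl_sum E i
        push_cast
        linarith

/-- the hypotheses on the density -/
structure Dn (κ : ℝ) (P : Finset ℕ) (g : ℕ → ℝ) : Prop where
  nn : ∀ p ∈ P, 0 ≤ g p
  half : ∀ p ∈ P, g p ≤ 1 / 2
  kap : ∀ p ∈ P, g p ≤ κ / p

theorem Dn.mono {κ : ℝ} {P P' : Finset ℕ} {g : ℕ → ℝ} (h : Dn κ P g) (hP : P' ⊆ P) : Dn κ P' g :=
  ⟨fun p hp => h.nn p (hP hp), fun p hp => h.half p (hP hp), fun p hp => h.kap p (hP hp)⟩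

theorem BP_gsum {κ : ℝ} {P : Finset ℕ} {g : ℕ → ℝ} (hκ : 0 ≤ κ) (hP : ∀ p ∈ P, p.Prime) (hg : Dn κ P g) (E i : ℕ) :
    ∑ p ∈ BP P E i, g p ≤ 11 * κ := by
  calc ∑ p ∈ BP P E i, g p ≤ ∑ p ∈ BP P E i, κ * ((1 : ℝ) / p) := by
        refine Finset.sum_le_sum fun p hp => ?_
        have := hg.kap p (mem_BP.1 hp).1
        rw [mul_one_div]
        exact this
    _ = κ * ∑ p ∈ BP P E i, (1 : ℝ) / p := by rw [Finset.mul_sum]
    _ ≤ κ * 11 := mul_le_mul_of_nonneg_left (BP_sum hP E i) hκ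
    _ = 11 * κ := by ring

theorem exp_le_one_sub {x : ℝ} (h0 : 0 ≤ x) (h1 : x ≤ 1 / 2) : Real.exp (-(2 * x)) ≤ 1 - x := by
  have h2 : Real.exp (-(2 * x)) = (Real.exp (2 * x))⁻¹ := Real.exp_neg _
  have h3 : 1 + 2 * x + (2 * x) ^ 2 / 2 ≤ Real.exp (2 * x) := Real.quadratic_le_exp_of_nonneg (by linarith)
  rw [h2, inv_le_comm₀ (Real.exp_pos _) (by linarith)]
  refine le_trans ?_ h3
  rw [inv_le_iff_one_le_mul₀ (by linarith)]
  nlinarith [mul_nonneg h0 h0, mul_nonneg (mul_nonneg h0 h0) (by linarith : (0 : ℝ) ≤ 1 / 2 - x)]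

theorem BP_prod {κ : ℝ} {P : Finset ℕ} {g : ℕ → ℝ} (hκ : 0 ≤ κ) (hP : ∀ p ∈ P, p.Prime) (hg : Dn κ P g) (E i : ℕ) :
    Real.exp (-(22 * κ)) ≤ ∏ p ∈ BP P E i, (1 - g p) := by
  have h1 : ∏ p ∈ BP P E i, Real.exp (-(2 * g p)) ≤ ∏ p ∈ BP P E i, (1 - g p) := by
    apply Finset.prod_le_prod
    · intro q _
      exact (Real.exp_pos _).le
    · intro q hq
      have hq' := (mem_BP.1 hq).1
      exact exp_le_one_sub (hg.nn q hq') (hg.half q hq')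
  refine le_trans ?_ h1
  rw [← Real.exp_sum, Finset.sum_neg_distrib, ← Finset.mul_sum]
  apply Real.exp_le_exp.2
  have := BP_gsum hκ hP hg E i
  linarith

/-- the error of the block `i` -/
noncomputable def er (K : ℝ) (b i : ℕ) : ℝ :=
  Real.exp (2 * K) * (K ^ (2 * (b + i) + 1) / ((2 * (b + i) + 1).factorial : ℝ))

theorem er_nonneg {K : ℝ} (hK : 0 ≤ K) (b i : ℕ) : 0 ≤ er K b i := by
  unfold er
  positivity

theorem BP_esy {κ : ℝ} {P : Finset ℕ} {g : ℕ → ℝ} (hκ : 0 ≤ κ) (hP : ∀ p ∈ P, p.Prime) (hg : Dn κ P g) (E i b : ℕ) :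
    esy g (2 * (b + i) + 1) (BP P E i) ≤ er (11 * κ) b i * ∏ p ∈ BP P E i, (1 - g p) := by
  have h1 := esy_le g (2 * (b + i) + 1) (BP P E i) (fun p hp => hg.nn p (mem_BP.1 hp).1)
  have h0 : 0 ≤ ∑ p ∈ BP P E i, g p := Finset.sum_nonneg fun p hp => hg.nn p (mem_BP.1 hp).1
  have h2 : (∑ p ∈ BP P E i, g p) ^ (2 * (b + i) + 1) / ((2 * (b + i) + 1).factorial : ℝ) ≤
      (11 * κ) ^ (2 * (b + i) + 1) / ((2 * (b + i) + 1).factorial : ℝ) := by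
    gcongr
    exact BP_gsum hκ hP hg E i
  refine h1.trans (h2.trans ?_)
  have h3 := BP_prod hκ hP hg E i
  have h4 : 0 ≤ er (11 * κ) b i := er_nonneg (by positivity) b i
  calc (11 * κ) ^ (2 * (b + i) + 1) / ((2 * (b + i) + 1).factorial : ℝ)
      = er (11 * κ) b i * Real.exp (-(22 * κ)) := by
        unfold er
        rw [mul_right_comm, ← Real.exp_add]
        have : 2 * (11 * κ) + -(22 * κ) = 0 := by ring
        rw [this, Real.exp_zero, one_mul]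
    _ ≤ _ := mul_le_mul_of_nonneg_left h3 h4

end Pool.Agent.PTWB
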