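import Pool.Agent.PTWB.FW3

/-!
# [PTWB] the tail of the errors and the level
-/

set_option autoImplicit false

open Finset

namespace Pool.Agent.PTWB

open Pool.Agent.SVP (sum_lev_aux)

theorem er_term {K : ℝ} (hK : 0 ≤ K) (b i : ℕ) :
    er K b i ≤ Real.exp (2 * K) * (K ^ (2 * b + 1) / ((2 * b + 1).factorial : ℝ)) * (K ^ (2 * i) / ((2 * i).factorial : ℝ)) := by
  unfold er
  rw [mul_assoc]
  apply mul_le_mul_of_nonneg_left _ (Real.exp_pos _).le
  have h1 : (2 * b + 1).factorial * (2 * i).factorial ≤ (2 * (b + i) + 1).factorial := by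
    have h2 := Nat.factorial_mul_factorial_dvd_factorial_add (2 * b + 1) (2 * i)
    have h3 : 2 * b + 1 + 2 * i = 2 * (b + i) + 1 := by ring
    rw [h3] at h2
    exact Nat.le_of_dvd (Nat.factorial_pos _) h2
  have h2 : K ^ (2 * (b + i) + 1) = K ^ (2 * b + 1) * K ^ (2 * i) := by
    rw [← pow_add]
    congr 1
    ring
  rw [div_mul_div_comm, h2]
  apply div_le_div_of_nonneg_left (by positivity)
  · positivity
  · exact_mod_cast h1

theorem even_sum {K : ℝ} (hK : 0 ≤ K) (m : ℕ) : ∑ i ∈ range m, K ^ (2 * i) / ((2 * i).factorial : ℝ) ≤ Real.exp K := by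
  have key : ∀ m : ℕ, ∑ i ∈ range m, K ^ (2 * i) / ((2 * i).factorial : ℝ) ≤
      ∑ n ∈ range (2 * m), K ^ n / (n.factorial : ℝ) := by
    intro m
    induction m with
    | zero => simp
    | succ m ih =>
      rw [sum_range_succ, show 2 * (m + 1) = 2 * m + 1 + 1 by ring, sum_range_succ, sum_range_succ]
      have h : (0 : ℝ) ≤ K ^ (2 * m + 1) / ((2 * m + 1).factorial : ℝ) := by positivity
      linarith
  exact (key m).trans (Real.sum_le_exp_of_nonneg hK _)

theorem er_tail {K : ℝ} (hK : 0 ≤ K) (ε : ℝ) (hε : 0 < ε) : ∃ b : ℕ, ∀ m : ℕ, ∑ i ∈ range m, er K b i ≤ ε := by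
  set c : ℝ := Real.exp (2 * K) * Real.exp K with hc
  have hc0 : 0 < c := by positivity
  have ht := FloorSemiring.tendsto_pow_div_factorial_atTop K
  have hev := ht.eventually (gt_mem_nhds (show (0 : ℝ) < ε / c by positivity))
  obtain ⟨N, hN⟩ := Filter.eventually_atTop.1 hev
  refine ⟨N, fun m => ?_⟩
  have h6 : K ^ (2 * N + 1) / ((2 * N + 1).factorial : ℝ) < ε / c := hN (2 * N + 1) (by omega)
  have h7 : 0 ≤ K ^ (2 * N + 1) / ((2 * N + 1).factorial : ℝ) := by positivity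
  calc ∑ i ∈ range m, er K N i
      ≤ ∑ i ∈ range m, Real.exp (2 * K) * (K ^ (2 * N + 1) / ((2 * N + 1).factorial : ℝ)) *
          (K ^ (2 * i) / ((2 * i).factorial : ℝ)) := sum_le_sum fun i _ => er_term hK N i
    _ = Real.exp (2 * K) * (K ^ (2 * N + 1) / ((2 * N + 1).factorial : ℝ)) *
          ∑ i ∈ range m, (K ^ (2 * i) / ((2 * i).factorial : ℝ)) := by rw [mul_sum]
    _ ≤ Real.exp (2 * K) * (K ^ (2 * N + 1) / ((2 * N + 1).factorial : ℝ)) * Real.exp K :=
        mul_le_mul_of_nonneg_left (even_sum hK m) (by positivity)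
    _ = c * (K ^ (2 * N + 1) / ((2 * N + 1).factorial : ℝ)) := by
        rw [hc]
        ring
    _ ≤ c * (ε / c) := mul_le_mul_of_nonneg_left h6.le hc0.le
    _ = ε := by field_simp

theorem level (E b m : ℕ) : ∏ i ∈ range m, (2 ^ (E / 2 ^ i)) ^ (2 * (b + i) + 1) ≤ 2 ^ (E * (4 * b + 6)) := by
  have hsum : ∑ i ∈ range m, (E / 2 ^ i) * (2 * (b + i) + 1) ≤ E * (4 * b + 6) := by
    have h3 : ((∑ i ∈ range m, (E / 2 ^ i) * (2 * (b + i) + 1) : ℕ) : ℝ) ≤ ((E * (4 * b + 6) : ℕ) : ℝ) := by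
      push_cast
      calc ∑ i ∈ range m, ((E / 2 ^ i : ℕ) : ℝ) * (2 * ((b : ℝ) + i) + 1)
          ≤ ∑ i ∈ range m, (E : ℝ) * ((2 * ((b : ℝ) + i) + 1) / 2 ^ i) := by
            refine Finset.sum_le_sum fun i _ => ?_
            have h4 : ((E / 2 ^ i : ℕ) : ℝ) ≤ (E : ℝ) / 2 ^ i := by
              have := @Nat.cast_div_le ℝ _ _ _ E (2 ^ i)
              simpa using this
            calc ((E / 2 ^ i : ℕ) : ℝ) * (2 * ((b : ℝ) + i) + 1)
                ≤ ((E : ℝ) / 2 ^ i) * (2 * ((b : ℝ) + i) + 1) :=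
                  mul_le_mul_of_nonneg_right h4 (by positivity)
              _ = _ := by ring
        _ = (E : ℝ) * ∑ i ∈ range m, (2 * ((b : ℝ) + i) + 1) / 2 ^ i := by rw [Finset.mul_sum]
        _ ≤ (E : ℝ) * (4 * b + 6) := by
            refine mul_le_mul_of_nonneg_left ?_ (Nat.cast_nonneg _)
            rw [sum_lev_aux]
            have : (0 : ℝ) ≤ (4 * (b : ℝ) + 4 * m + 6) / 2 ^ m := by positivity
            linarith
    exact_mod_cast h3
  calc ∏ i ∈ range m, (2 ^ (E / 2 ^ i)) ^ (2 * (b + i) + 1)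
      = 2 ^ (∑ i ∈ range m, (E / 2 ^ i) * (2 * (b + i) + 1)) := by
        rw [← Finset.prod_pow_eq_pow_sum]
        exact Finset.prod_congr rfl fun i _ => (pow_mul _ _ _).symm
    _ ≤ _ := Nat.pow_le_pow_right (by norm_num) hsum

end Pool.Agent.PTWB
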