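import Pool.Agent.PTWB.FW4

/-!
# [PTWB] divisor sums
-/

set_option autoImplicit false

open Finset

namespace Pool.Agent.PTWB

/-- the function on numbers attached to a function on sets of primes -/
noncomputable def tt (c : Finset ℕ → ℝ) (d : ℕ) : ℝ := if Squarefree d then c d.primeFactors else 0

theorem sqf_prod {Q : Finset ℕ} (hQ : ∀ p ∈ Q, p.Prime) : Squarefree (∏ p ∈ Q, p) := by
  classical
  induction Q using Finset.induction_on with
  | empty => simp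
  | insert p Q hp ih =>
    rw [Finset.prod_insert hp, Nat.squarefree_mul_iff]
    refine ⟨Nat.Coprime.prod_right fun q hq => ?_, (hQ p (mem_insert_self _ _)).prime.squarefree,
      ih fun q hq => hQ q (mem_insert_of_mem hq)⟩
    rw [Nat.coprime_primes (hQ p (mem_insert_self _ _)) (hQ q (mem_insert_of_mem hq))]
    rintro rfl
    exact hp hq

theorem sqf_sum {a : ℕ} (ha : a ≠ 0) (F : Finset ℕ → ℝ) :
    ∑ d ∈ a.divisors, (if Squarefree d then F d.primeFactors else 0) = ∑ Q ∈ a.primeFactors.powerset, F Q := by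
  classical
  rw [← Finset.sum_filter]
  refine Finset.sum_nbij' (fun d => d.primeFactors) (fun Q => ∏ p ∈ Q, p) ?_ ?_ ?_ ?_ ?_
  · intro d hd
    rw [Finset.mem_filter, Nat.mem_divisors] at hd
    rw [Finset.mem_powerset]
    exact Nat.primeFactors_mono hd.1.1 ha
  · intro Q hQ
    rw [Finset.mem_powerset] at hQ
    have hp : ∀ p ∈ Q, p.Prime := fun p h => Nat.prime_of_mem_primeFactors (hQ h)
    rw [Finset.mem_filter, Nat.mem_divisors]
    refine ⟨⟨?_, ha⟩, sqf_prod hp⟩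
    exact (Finset.prod_dvd_prod_of_subset _ _ _ hQ).trans (Nat.prod_primeFactors_dvd a)
  · intro d hd
    rw [Finset.mem_filter] at hd
    exact Nat.prod_primeFactors_of_squarefree hd.2
  · intro Q hQ
    rw [Finset.mem_powerset] at hQ
    exact Nat.primeFactors_prod fun p h => Nat.prime_of_mem_primeFactors (hQ h)
  · intro d _
    rfl

theorem tt_ind {P : Finset ℕ} {c : Finset ℕ → ℝ} (hc : ∀ Q, c Q ≠ 0 → Q ⊆ P) (hP : ∀ p ∈ P, p.Prime) {a : ℕ} (ha : a ≠ 0) :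
    ∑ d ∈ a.divisors, tt c d = ∑ Q ∈ P.powerset, c Q * ∏ p ∈ Q, (if p ∣ a then (1 : ℝ) else 0) := by
  classical
  have h1 : ∑ d ∈ a.divisors, tt c d = ∑ Q ∈ a.primeFactors.powerset, c Q := sqf_sum ha c
  rw [h1]
  have h2 : ∀ Q ∈ P.powerset, c Q * ∏ p ∈ Q, (if p ∣ a then (1 : ℝ) else 0) =
      if Q ⊆ a.primeFactors then c Q else 0 := by
    intro Q hQ
    rw [Finset.mem_powerset] at hQ
    by_cases hs : Q ⊆ a.primeFactors
    · rw [if_pos hs, Finset.prod_eq_one, mul_one]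
      intro p hp
      rw [if_pos (Nat.dvd_of_mem_primeFactors (hs hp))]
    · rw [if_neg hs]
      obtain ⟨p, hp, hpn⟩ := Finset.not_subset.1 hs
      have hpa : ¬ p ∣ a := fun h => hpn (Nat.mem_primeFactors.2 ⟨hP p (hQ hp), h, ha⟩)
      rw [Finset.prod_eq_zero hp (if_neg hpa), mul_zero]
  rw [Finset.sum_congr rfl h2, ← Finset.sum_filter]
  symm
  apply Finset.sum_subset_zero_on_sdiff
  · intro Q hQ
    rw [Finset.mem_filter] at hQ
    exact Finset.mem_powerset.2 hQ.2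
  · intro Q hQ
    rw [Finset.mem_sdiff, Finset.mem_filter, Finset.mem_powerset] at hQ
    by_contra hne
    exact hQ.2 ⟨Finset.mem_powerset.2 (hc Q hne), hQ.1⟩
  · intro Q _
    rfl

theorem tt_dens {P : Finset ℕ} (c : Finset ℕ → ℝ) (hP : ∀ p ∈ P, p.Prime) (g : ℕ → ℝ) :
    ∑ d ∈ (∏ p ∈ P, p).divisors, tt c d * ∏ p ∈ d.primeFactors, g p =
      ∑ Q ∈ P.powerset, c Q * ∏ p ∈ Q, g p := by
  classical
  have h0 : (∏ p ∈ P, p) ≠ 0 := Finset.prod_ne_zero_iff.2 fun p hp => (hP p hp).ne_zero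
  have h1 := sqf_sum h0 (fun Q => c Q * ∏ p ∈ Q, g p)
  rw [Nat.primeFactors_prod hP] at h1
  rw [← h1]
  refine Finset.sum_congr rfl fun d _ => ?_
  unfold tt
  split_ifs
  · rfl
  · rw [zero_mul]

theorem tt_supp {P : Finset ℕ} {c : Finset ℕ → ℝ} {L : ℕ} (hc : ∀ Q, c Q ≠ 0 → Q ⊆ P ∧ ∏ p ∈ Q, p ≤ L)
    {d : ℕ} (hd : tt c d ≠ 0) : d ∣ ∏ p ∈ P, p ∧ d ≤ L := by
  unfold tt at hd
  split_ifs at hd with hs
  · obtain ⟨h1, h2⟩ := hc _ hd
    rw [Nat.prod_primeFactors_of_squarefree hs] at h2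
    refine ⟨?_, h2⟩
    have h3 := Finset.prod_dvd_prod_of_subset _ _ (fun p : ℕ => p) h1
    rwa [Nat.prod_primeFactors_of_squarefree hs] at h3
  · exact absurd rfl hd

theorem tt_abs {c : Finset ℕ → ℝ} (hc : ∀ Q, |c Q| ≤ 1) (d : ℕ) : |tt c d| ≤ 1 := by
  unfold tt
  split_ifs
  · exact hc _
  · simp

end Pool.Agent.PTWB
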